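import Pool.Agent.Helper71_HNF.StmtE

/-!
# HNF: E2STEP, the choice of `v` at a node of engine II
-/

set_option autoImplicit false

namespace Pool.Agent.HNF.H67

open Topology Set Filter

variable {G : Type} [Group G] [TopologicalSpace G]

theorem nsymm (N : LNorm G) (x y : G) : N.N (x⁻¹ * y) = N.N (y⁻¹ * x) := by
  rw [← N.inv (x⁻¹ * y)]; congr 1; group

theorem ntri (N : LNorm G) (x y z : G) : N.N (x⁻¹ * z) ≤ N.N (x⁻¹ * y) + N.N (y⁻¹ * z) := by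
  have := N.mul_le (x⁻¹ * y) (y⁻¹ * z)
  rwa [show x⁻¹ * y * (y⁻¹ * z) = x⁻¹ * z by group] at this

theorem nleft (N : LNorm G) (g x y : G) : N.N ((g * x)⁻¹ * (g * y)) = N.N (x⁻¹ * y) := by
  congr 1; group

/-- thinning for one pair -/
theorem thin_one (N : LNorm G) (a : ℕ → G) (c : G) (r : ℝ) (M : Set ℕ) (hM : M.Infinite) :
    ∃ M' ⊆ M, M'.Infinite ∧ ∃ c' : G, (∀ m ∈ M', N.N (c'⁻¹ * (a m * c)) < r) ∨
      ∀ y : G, {m | m ∈ M' ∧ N.N (y⁻¹ * (a m * c)) < r}.Finite := by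
  by_cases h : ∃ y : G, {m | m ∈ M ∧ N.N (y⁻¹ * (a m * c)) < r}.Infinite
  · obtain ⟨y, hy⟩ := h
    exact ⟨_, fun m hm => hm.1, hy, y, Or.inl fun m hm => hm.2⟩
  · push Not at h
    exact ⟨M, Subset.rfl, hM, 1, Or.inr fun y => by
      have := h y
      simpa [Set.not_infinite] using this⟩

/-- thinning for finitely many pairs -/
theorem thin (N : LNorm G) (a : ℕ → G) (P : Set (G × ℝ)) (hP : P.Finite) :
    ∃ M : Set ℕ, M.Infinite ∧ ∃ f : G × ℝ → G, ∀ x ∈ P,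
      (∀ m ∈ M, N.N ((f x)⁻¹ * (a m * x.1)) < x.2) ∨
      ∀ y : G, {m | m ∈ M ∧ N.N (y⁻¹ * (a m * x.1)) < x.2}.Finite := by
  classical
  induction P, hP using Set.Finite.induction_on with
  | empty => exact ⟨univ, infinite_univ, fun _ => 1, fun x hx => absurd hx (notMem_empty x)⟩
  | @insert x0 P hx0 _ ih =>
    obtain ⟨M, hM, f, hf⟩ := ih
    obtain ⟨M', hM'M, hM', c', hc'⟩ := thin_one N a x0.1 x0.2 M hM
    refine ⟨M', hM', fun x => if x = x0 then c' else f x, ?_⟩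
    intro x hx
    by_cases hxx : x = x0
    · subst hxx
      simp only [if_true]
      exact hc'
    · simp only [if_neg hxx]
      have hxP : x ∈ P := by
        rcases hx with h | h
        · exact absurd h hxx
        · exact h
      rcases hf x hxP with h | h
      · exact Or.inl fun m hm => h m (hM'M hm)
      · exact Or.inr fun y => (h y).subset fun m hm => ⟨hM'M hm.1, hm.2⟩

/-- in a separated sequence at most one point is near a given point -/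
theorem near_finite (N : LNorm G) (b : ℕ → G) (r : ℝ)
    (hb : ∀ k k', k ≠ k' → 2 * r ≤ N.N ((b k)⁻¹ * b k')) (y : G) :
    {k | N.N (y⁻¹ * b k) < r}.Finite := by
  apply Set.Subsingleton.finite
  intro k hk k' hk'
  by_contra hne
  have h1 := hb k k' hne
  have h2 := ntri N (b k) y (b k')
  rw [nsymm N (b k) y] at h2
  have h3 : N.N (y⁻¹ * b k) < r := hk
  have h4 : N.N (y⁻¹ * b k') < r := hk'
  linarith

theorem lev_move (N : LNorm G) {e ρ : ℝ} {x ζ y : G} (hx : Lev N e x ρ)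
    (hζ : N.N (ζ⁻¹ * x) < ρ / 1000) (hy : e ≤ N.N y) : ρ / 2 ≤ N.N (ζ⁻¹ * y * ζ) := by
  have h1 := hx y hy
  have h2 := N.mul_le (x⁻¹ * ζ) (ζ⁻¹ * y * ζ * (ζ⁻¹ * x))
  have h3 := N.mul_le (ζ⁻¹ * y * ζ) (ζ⁻¹ * x)
  rw [show x⁻¹ * ζ * (ζ⁻¹ * y * ζ * (ζ⁻¹ * x)) = x⁻¹ * y * x by group] at h2
  rw [nsymm N x ζ] at h2
  have h4 : 0 ≤ N.N (ζ⁻¹ * x) := by
    have := N.mul_le (ζ⁻¹ * x) (ζ⁻¹ * x)⁻¹
    rw [mul_inv_cancel, N.one, N.inv] at this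
    linarith
  linarith

theorem e2step : E2StepStmt := by
  intro G _ _ _ _ N A' e a hown t p hpt B Q β hβ hQfin hQpos hsrv C hC Z hZ ρ hρ hρ1 hZl
  -- the pairs to thin
  have hPfin : ((fun x : G × (G × ℝ) => (x.1, x.2.2 / 10)) '' (C ×ˢ Q p)).Finite :=
    (hC.prod (hQfin p)).image _
  obtain ⟨M, hM, f, hf⟩ := thin N a _ hPfin
  -- the choice of τ
  obtain ⟨τ, hτB, -, hτ⟩ := hsrv p hpt
    (f '' ((fun x : G × (G × ℝ) => (x.1, x.2.2 / 10)) '' (C ×ˢ Q p))) (hPfin.image f)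
  have h1β : (1 : G) ∈ β := mem_of_mem_nhds hβ
  -- neighbourhoods
  obtain ⟨U, hU, hUU⟩ : ∃ U ∈ 𝓝 (1 : G), ∀ x ∈ U, ∀ y ∈ U, x * y ∈ β := by
    obtain ⟨U, hUo, hU1, hUU⟩ := exists_open_nhds_one_mul_subset hβ
    exact ⟨U, hUo.mem_nhds hU1, fun x hx y hy => hUU (mul_mem_mul hx hy)⟩
  have h1U : (1 : G) ∈ U := mem_of_mem_nhds hU
  have hU' : {u : G | τ⁻¹ * u * τ ∈ U} ∈ 𝓝 (1 : G) := by
    have hc : Continuous fun u : G => τ⁻¹ * u * τ := by fun_prop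
    have := hc.continuousAt (x := 1)
    apply this
    simpa using hU
  obtain ⟨m₀, hm₀⟩ := hown.disp _ hU'
  -- separation of a m ζ
  have hsepζ : ∀ ζ ∈ Z, ∀ y : G, e ≤ N.N y → ρ / 2 ≤ N.N (ζ⁻¹ * y * ζ) := by
    intro ζ hζ y hy
    obtain ⟨x, hx1, hx2⟩ := hZl ζ hζ
    exact lev_move N hx2 hx1 hy
  -- bad indices
  have hbadA : {m | m ∈ M ∧ ∃ x ∈ Q p, ∃ c ∈ C,
      N.N (c⁻¹ * ((τ⁻¹ * a m)⁻¹ * x.1)) < x.2 / 10}.Finite := by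
    have : {m | m ∈ M ∧ ∃ x ∈ Q p, ∃ c ∈ C,
        N.N (c⁻¹ * ((τ⁻¹ * a m)⁻¹ * x.1)) < x.2 / 10} ⊆
        ⋃ x ∈ Q p, ⋃ c ∈ C, {m | m ∈ M ∧ N.N (c⁻¹ * ((τ⁻¹ * a m)⁻¹ * x.1)) < x.2 / 10} := by
      rintro m ⟨hm, x, hx, c, hc, h⟩
      simp only [mem_iUnion]
      exact ⟨x, hx, c, hc, hm, h⟩
    refine Set.Finite.subset ((hQfin p).biUnion fun x hx => hC.biUnion fun c hc => ?_) this
    have hxc : (c, x.2 / 10) ∈ ((fun x : G × (G × ℝ) => (x.1, x.2.2 / 10)) '' (C ×ˢ Q p)) :=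
      ⟨(c, x), ⟨hc, hx⟩, rfl⟩
    have hrw : ∀ m, N.N (c⁻¹ * ((τ⁻¹ * a m)⁻¹ * x.1)) = N.N ((τ * x.1)⁻¹ * (a m * c)) := by
      intro m
      rw [nsymm N (τ * x.1) (a m * c)]
      congr 1; group
    rcases hf _ hxc with h | h
    · -- all near one point, which τ avoids
      refine Set.Finite.subset finite_empty ?_
      rintro m ⟨hm, hlt⟩
      exfalso
      have h1 := h m hm
      have h2 := hτ x hx (f (c, x.2 / 10)) ⟨_, hxc, rfl⟩ 1 h1β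
      rw [mul_one] at h2
      rw [hrw] at hlt
      have h3 := ntri N (f (c, x.2 / 10)) (a m * c) (τ * x.1)
      rw [nsymm N (a m * c) (τ * x.1)] at h3
      have h4 := hQpos p x hx
      simp only at h1
      linarith
    · refine (h (τ * x.1)).subset ?_
      rintro m ⟨hm, hlt⟩
      rw [hrw] at hlt
      exact ⟨hm, hlt⟩
  have hbadB : {m | ∃ ζ ∈ Z, ∃ c ∈ C, N.N (c⁻¹ * (τ⁻¹ * a m * ζ)) < ρ / 4}.Finite := by
    have : {m | ∃ ζ ∈ Z, ∃ c ∈ C, N.N (c⁻¹ * (τ⁻¹ * a m * ζ)) < ρ / 4} ⊆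
        ⋃ ζ ∈ Z, ⋃ c ∈ C, {m | N.N ((τ * c)⁻¹ * (a m * ζ)) < ρ / 4} := by
      rintro m ⟨ζ, hζ, c, hc, h⟩
      simp only [mem_iUnion]
      refine ⟨ζ, hζ, c, hc, ?_⟩
      simp only [mem_ofPred_eq]
      rwa [show (τ * c)⁻¹ * (a m * ζ) = c⁻¹ * (τ⁻¹ * a m * ζ) by group]
    refine Set.Finite.subset (hZ.biUnion fun ζ hζ => hC.biUnion fun c hc => ?_) this
    apply near_finite N (fun m => a m * ζ)
    intro k k' hkk
    have := hsepζ ζ hζ ((a k)⁻¹ * a k') (hown.sep k k' hkk)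
    rw [show (a k * ζ)⁻¹ * (a k' * ζ) = ζ⁻¹ * ((a k)⁻¹ * a k') * ζ by group]
    linarith
  -- the choice of m
  obtain ⟨m, hmM, hm⟩ : ∃ m ∈ M, m ∉ {m | m ∈ M ∧ ∃ x ∈ Q p, ∃ c ∈ C,
      N.N (c⁻¹ * ((τ⁻¹ * a m)⁻¹ * x.1)) < x.2 / 10} ∪
      {m | ∃ ζ ∈ Z, ∃ c ∈ C, N.N (c⁻¹ * (τ⁻¹ * a m * ζ)) < ρ / 4} ∪ {m | m < m₀} :=
    hM.exists_notMem_finite ((hbadA.union hbadB).union (finite_lt_nat m₀))
  simp only [mem_union, not_or, mem_ofPred_eq, not_lt] at hm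
  obtain ⟨⟨hmA, hmB⟩, hm0⟩ := hm
  obtain ⟨b, hbU, hb⟩ := hm₀ m hm0
  -- the new reserve
  have hβ'n : {s : G | s ∈ U ∧ ∀ ζ ∈ Z,
      N.N ((τ⁻¹ * a m * ζ)⁻¹ * (s * (τ⁻¹ * a m * ζ))) < ρ / 8} ∈ 𝓝 (1 : G) := by
    have h1 : ∀ ζ ∈ Z, {s : G | N.N ((τ⁻¹ * a m * ζ)⁻¹ * (s * (τ⁻¹ * a m * ζ))) < ρ / 8} ∈
        𝓝 (1 : G) := by
      intro ζ _
      have hc : Continuous fun s : G => N.N ((τ⁻¹ * a m * ζ)⁻¹ * (s * (τ⁻¹ * a m * ζ))) :=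
        N.cont.comp (by fun_prop)
      refine (isOpen_lt hc continuous_const).mem_nhds ?_
      simp only [mem_ofPred_eq, one_mul, inv_mul_cancel, N.one]
      linarith
    have h2 := (biInter_mem hZ).2 h1
    filter_upwards [hU, h2] with s hs1 hs2
    refine ⟨hs1, fun ζ hζ => ?_⟩
    simp only [mem_iInter] at hs2
    exact hs2 ζ hζ
  refine ⟨τ, hτB, m, _, hβ'n, ?_, ?_, ?_, ?_⟩
  · intro s hs
    have := hUU s hs.1 1 h1U
    rwa [mul_one] at this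
  · intro x hx c hc
    by_contra hcon
    push Not at hcon
    exact hmA ⟨hmM, x, hx, c, hc, hcon⟩
  · intro ζ hζ c hc
    by_contra hcon
    push Not at hcon
    exact hmB ⟨ζ, hζ, c, hc, hcon⟩
  · intro w hw C1 hC1
    obtain ⟨τ0, hτ0, hτ0s, hτ0q⟩ := hsrv w hw C1 hC1
    -- choose k
    have hbadK : {k | ∃ ζ ∈ Z, ∃ c ∈ C1,
        N.N ((τ0⁻¹ * c)⁻¹ * (τ⁻¹ * b k * τ * (τ⁻¹ * a m * ζ))) < ρ / 4}.Finite := by
      have : {k | ∃ ζ ∈ Z, ∃ c ∈ C1,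
          N.N ((τ0⁻¹ * c)⁻¹ * (τ⁻¹ * b k * τ * (τ⁻¹ * a m * ζ))) < ρ / 4} ⊆
          ⋃ ζ ∈ Z, ⋃ c ∈ C1, {k | N.N ((τ0⁻¹ * c)⁻¹ * (τ⁻¹ * b k * τ * (τ⁻¹ * a m * ζ))) <
            ρ / 4} := by
        rintro k ⟨ζ, hζ, c, hc, h⟩
        simp only [mem_iUnion]
        exact ⟨ζ, hζ, c, hc, h⟩
      refine Set.Finite.subset (hZ.biUnion fun ζ hζ => hC1.biUnion fun c hc => ?_) this
      apply near_finite N (fun k => τ⁻¹ * b k * τ * (τ⁻¹ * a m * ζ))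
      intro k k' hkk
      have := hsepζ ζ hζ ((b k * a m)⁻¹ * (b k' * a m)) (hb k k' hkk)
      rw [show (τ⁻¹ * b k * τ * (τ⁻¹ * a m * ζ))⁻¹ * (τ⁻¹ * b k' * τ * (τ⁻¹ * a m * ζ)) =
        ζ⁻¹ * ((b k * a m)⁻¹ * (b k' * a m)) * ζ by group]
      linarith
    obtain ⟨k, -, hk⟩ := (infinite_univ (α := ℕ)).exists_notMem_finite hbadK
    have hbk : τ⁻¹ * b k * τ ∈ U := hbU k
    refine ⟨τ0 * (τ⁻¹ * b k * τ), ?_, ?_, ?_⟩
    · apply hτ0s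
      have := hUU _ hbk 1 h1U
      rwa [mul_one] at this
    · intro s hs
      rw [mul_assoc]
      exact hτ0s _ (hUU _ hbk _ hs.1)
    · intro x hx c hc s hs
      rcases hx with hx | hx
      · have := hτ0q x hx c hc (τ⁻¹ * b k * τ * s) (hUU _ hbk _ hs.1)
        rwa [show τ0 * (τ⁻¹ * b k * τ) * s * x.1 = τ0 * (τ⁻¹ * b k * τ * s) * x.1 by group]
      · obtain ⟨ζ, hζ, rfl⟩ := hx
        simp only
        have h1 : ρ / 4 ≤ N.N ((τ0⁻¹ * c)⁻¹ * (τ⁻¹ * b k * τ * (τ⁻¹ * a m * ζ))) := by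
          by_contra hcon
          push Not at hcon
          exact hk ⟨ζ, hζ, c, hc, hcon⟩
        have h2 := hs.2 ζ hζ
        set y := τ⁻¹ * a m * ζ with hy
        have h3 : N.N (c⁻¹ * (τ0 * (τ⁻¹ * b k * τ) * y)) =
            N.N ((τ0⁻¹ * c)⁻¹ * (τ⁻¹ * b k * τ * y)) := by
          congr 1; group
        have h4 := ntri N c (τ0 * (τ⁻¹ * b k * τ) * s * y) (τ0 * (τ⁻¹ * b k * τ) * y)
        have h5 : N.N ((τ0 * (τ⁻¹ * b k * τ) * s * y)⁻¹ * (τ0 * (τ⁻¹ * b k * τ) * y)) =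
            N.N (y⁻¹ * (s * y)) := by
          rw [nsymm N _ (τ0 * (τ⁻¹ * b k * τ) * y)]
          congr 1; group
        rw [h5] at h4
        rw [h3] at h4
        linarith

end Pool.Agent.HNF.H67
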